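import Mathlib
import Pool.Agent.W993.MC.Stm

/-!
# Growth of the dimension of the space of alternating multiple zeta values
-/

set_option autoImplicit false

open Filter Topology

namespace Pool.Agent.W348.MC

open Pool.Agent.W993.MC

theorem ins_good (c : ℕ × ℂ) (hc1 : 1 ≤ c.1) (hc2 : c.2 ^ 2 = 1) :
    ∀ L : List (ℕ × ℂ), (∀ p ∈ L, 1 ≤ p.1 ∧ p.2 ^ 2 = 1) → ∀ K ∈ ins c L,
      K ≠ [] ∧ (∀ p ∈ K, 1 ≤ p.1 ∧ p.2 ^ 2 = 1) ∧
        (K.map Prod.fst).sum = (L.map Prod.fst).sum + c.1 := by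
  intro L
  induction L with
  | nil =>
    intro _ K hK
    simp only [ins, List.mem_singleton] at hK
    subst hK
    refine ⟨by simp, ?_, by simp⟩
    intro p hp
    rw [List.mem_singleton] at hp
    subst hp
    exact ⟨hc1, hc2⟩
  | cons x L ih =>
    intro hL K hK
    have hx := hL x (List.mem_cons_self)
    have hL' : ∀ p ∈ L, 1 ≤ p.1 ∧ p.2 ^ 2 = 1 := fun p hp => hL p (List.mem_cons_of_mem _ hp)
    simp only [ins, List.mem_cons, List.mem_map] at hK
    rcases hK with rfl | rfl | ⟨K', hK', rfl⟩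
    · refine ⟨by simp, ?_, ?_⟩
      · intro p hp
        rcases List.mem_cons.1 hp with rfl | hp
        · exact ⟨hc1, hc2⟩
        · exact hL p hp
      · simp only [List.map_cons, List.sum_cons]; ring
    · refine ⟨by simp, ?_, ?_⟩
      · intro p hp
        rcases List.mem_cons.1 hp with rfl | hp
        · refine ⟨by simp only; omega, ?_⟩
          simp only
          rw [mul_pow, hx.2, hc2, one_mul]
        · exact hL' p hp
      · simp only [List.map_cons, List.sum_cons]; ring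
    · obtain ⟨h1, h2, h3⟩ := ih hL' K' hK'
      refine ⟨by simp, ?_, ?_⟩
      · intro p hp
        rcases List.mem_cons.1 hp with rfl | hp
        · exact hx
        · exact h2 p hp
      · simp only [List.map_cons, List.sum_cons, h3]; ring

theorem ins_head (c : ℕ × ℂ) (hc1 : 1 ≤ c.1) (hc : c ≠ (1, 1)) (L : List (ℕ × ℂ))
    (hL : ∀ p ∈ L, 1 ≤ p.1) (hh : L.head? ≠ some (1, 1)) : ∀ K ∈ ins c L, K.head? ≠ some (1, 1) := by
  intro K hK
  cases L with
  | nil =>
    simp only [ins, List.mem_singleton] at hK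
    subst hK
    simpa using hc
  | cons x L =>
    simp only [ins, List.mem_cons, List.mem_map] at hK
    rcases hK with rfl | rfl | ⟨K', hK', rfl⟩
    · simpa using hc
    · have hx := hL x (List.mem_cons_self)
      intro h
      rw [List.head?_cons, Option.some.injEq] at h
      have h1 := congrArg Prod.fst h
      simp only at h1
      omega
    · simpa using hh

theorem adm_ins (c : ℕ × ℂ) (hc1 : 1 ≤ c.1) (hc2 : c.2 ^ 2 = 1) (hc : c ≠ (1, 1)) {w : ℕ}
    {L : List (ℕ × ℂ)} (hL : Adm 2 w L) : ∀ K ∈ ins c L, Adm 2 (w + c.1) K := by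
  intro K hK
  obtain ⟨h1, h2, h3, h4⟩ := hL
  obtain ⟨k1, k2, k3⟩ := ins_good c hc1 hc2 L h2 K hK
  exact ⟨k1, k2, by rw [k3, h3], ins_head c hc1 hc L (fun p hp => (h2 p hp).1) h4 K hK⟩

theorem sq_norm {z : ℂ} (h : z ^ 2 = 1) : ‖z‖ ≤ 1 := by
  have h1 : ‖z‖ ^ 2 = 1 := by rw [← norm_pow, h, norm_one]
  nlinarith [norm_nonneg z]

/-- admissible words converge -/
theorem adm_cv (h : S_CV) {w : ℕ} {L : List (ℕ × ℂ)} (hL : Adm 2 w L) :
    ∃ v ∈ Zsp 2 w, Tendsto (S L) atTop (𝓝 v) := by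
  have hL' := hL
  obtain ⟨h1, h2, h3, h4⟩ := hL
  cases L with
  | nil => exact absurd rfl h1
  | cons x L =>
    obtain ⟨a, z⟩ := x
    have hx := h2 (a, z) (List.mem_cons_self)
    have hne : (a, z) ≠ (1, 1) := by
      intro h5
      apply h4
      rw [List.head?_cons, h5]
    obtain ⟨v, hv⟩ := h a z L hx.1 (sq_norm hx.2) hne (fun p hp =>
      ⟨(h2 p (List.mem_cons_of_mem _ hp)).1, sq_norm (h2 p (List.mem_cons_of_mem _ hp)).2⟩)
    exact ⟨v, Submodule.subset_span ⟨_, hL', hv⟩, hv⟩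

theorem sum_cv (h : S_CV) {w : ℕ} (Ls : List (List (ℕ × ℂ))) (hL : ∀ K ∈ Ls, Adm 2 w K) :
    ∃ v ∈ Zsp 2 w, Tendsto (fun M => (Ls.map (fun K => S K M)).sum) atTop (𝓝 v) := by
  induction Ls with
  | nil => exact ⟨0, Submodule.zero_mem _, by simp⟩
  | cons K Ls ih =>
    obtain ⟨v, hv, tv⟩ := ih (fun K' hK' => hL K' (List.mem_cons_of_mem _ hK'))
    obtain ⟨u, hu, tu⟩ := adm_cv h (hL K (List.mem_cons_self))
    refine ⟨u + v, Submodule.add_mem _ hu hv, ?_⟩
    simp only [List.map_cons, List.sum_cons]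
    exact tu.add tv

/-- multiplication by the value of a letter -/
theorem mul_mem (h1 : S_INS) (h2 : S_CV) (c : ℕ × ℂ) (hc1 : 1 ≤ c.1) (hc2 : c.2 ^ 2 = 1)
    (hc : c ≠ (1, 1)) {u : ℂ} (hu : Tendsto (S [c]) atTop (𝓝 u)) (w : ℕ) :
    ∀ v ∈ Zsp 2 w, u * v ∈ Zsp 2 (w + c.1) := by
  intro v hv
  induction hv using Submodule.span_induction with
  | mem v hv =>
    obtain ⟨L, hL, tL⟩ := hv
    obtain ⟨s, hs, ts⟩ := sum_cv h2 (ins c L) (adm_ins c hc1 hc2 hc hL)
    have h3 : (fun M => ((ins c L).map (fun K => S K M)).sum) = fun M => S L M * S [c] M := by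
      funext M
      exact (h1 c L M).symm
    rw [h3] at ts
    have h4 := tendsto_nhds_unique ts (tL.mul hu)
    rw [mul_comm, ← h4]
    exact hs
  | zero => rw [mul_zero]; exact Submodule.zero_mem _
  | add x y _ _ hx hy => rw [mul_add]; exact Submodule.add_mem _ hx hy
  | smul q x _ hx => rw [mul_smul_comm]; exact Submodule.smul_mem _ _ hx

/-- finitely many admissible words -/
theorem fin_words (w : ℕ) : {L : List (ℕ × ℂ) | Adm 2 w L}.Finite := by
  let A : Set (ℕ × ℂ) := (Set.Iic w) ×ˢ ({1, -1} : Set ℂ)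
  have hA : A.Finite := (Set.finite_Iic w).prod (by simp)
  have : Finite A := hA
  have h1 : {l : List A | l.length ≤ w}.Finite := List.finite_length_le A w
  refine (h1.image (List.map Subtype.val)).subset ?_
  rintro L ⟨h1, h2, h3, h4⟩
  have hlen : ∀ L : List (ℕ × ℂ), (∀ p ∈ L, 1 ≤ p.1) → L.length ≤ (L.map Prod.fst).sum := by
    intro L
    induction L with
    | nil => intro _; simp
    | cons x L ih =>
      intro h
      have e1 := ih (fun p hp => h p (List.mem_cons_of_mem _ hp))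
      have e2 := h x (List.mem_cons_self)
      simp only [List.length_cons, List.map_cons, List.sum_cons]
      omega
  have hle : ∀ p ∈ L, p.1 ≤ w := by
    intro p hp
    rw [← h3]
    exact List.single_le_sum (fun _ _ => Nat.zero_le _) _ (List.mem_map_of_mem hp)
  have hmem : ∀ p ∈ L, p ∈ A := by
    intro p hp
    refine ⟨hle p hp, ?_⟩
    have e1 := (h2 p hp).2
    have e3 : (p.2 - 1) * (p.2 + 1) = 0 := by linear_combination e1
    rcases mul_eq_zero.1 e3 with e2 | e2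
    · left; exact sub_eq_zero.1 e2
    · right; exact eq_neg_of_add_eq_zero_left e2
  lift L to List A using hmem
  refine ⟨L, ?_, rfl⟩
  have e1 := hlen (L.map Subtype.val) (fun p hp => (h2 p hp).1)
  rw [h3, List.length_map] at e1
  exact e1

theorem fin_dim (w : ℕ) : (Zsp 2 w).FG := by
  refine Submodule.fg_span ?_
  refine ((fin_words w).image (fun L => limUnder atTop (S L))).subset ?_
  rintro v ⟨L, hL, tL⟩
  exact ⟨L, hL, tL.limUnder_eq⟩

theorem step (h1 : S_INS) (h2 : S_CV) (h3 : S_ABEL) (h4 : S_P) (h5 : S_TR) (h6 : S_LOW) :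
    S_STEP := by
  intro w hw
  have hlog : Tendsto (S [(1, -1)]) atTop (𝓝 (-(Real.log 2 : ℂ))) := by
    have e1 := h3 0 (-1) (by simp) (by norm_num)
    have e2 : (-Complex.log (1 - (-1))) ^ (0 + 1) / ((0 + 1).factorial : ℂ) = -(Real.log 2 : ℂ) := by
      rw [zero_add, pow_one, Nat.factorial_one, Nat.cast_one, div_one, sub_neg_eq_add,
        one_add_one_eq_two, Complex.ofReal_log (by norm_num)]
      norm_num
    rw [e2] at e1
    exact e1
  have m1 : ∀ w', ∀ v ∈ Zsp 2 w', -(Real.log 2 : ℂ) * v ∈ Zsp 2 (w' + 1) := fun w' =>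
    mul_mem h1 h2 (1, -1) le_rfl (by norm_num) (by
      intro h
      have := congrArg Prod.snd h
      simp only at this
      norm_num at this) hlog w'
  have m2 : ∀ v ∈ Zsp 2 w, (Real.pi : ℂ) ^ 2 / 6 * v ∈ Zsp 2 (w + 2) :=
    mul_mem h1 h2 (2, 1) (by norm_num) (by norm_num) (by
      intro h
      have := congrArg Prod.fst h
      simp only at this
      norm_num at this) h4.1 w
  obtain ⟨a, ha⟩ : ∃ a : ℂ, a = (Real.log 2 : ℂ) ^ 2 := ⟨_, rfl⟩
  obtain ⟨b, hb⟩ : ∃ b : ℂ, b = (Real.pi : ℂ) ^ 2 / 6 := ⟨_, rfl⟩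
  have ma : ∀ v ∈ Zsp 2 w, a * v ∈ Zsp 2 (w + 2) := by
    intro v hv
    have e1 := m1 (w + 1) _ (m1 w v hv)
    have e2 : -(Real.log 2 : ℂ) * (-(Real.log 2 : ℂ) * v) = a * v := by rw [ha]; ring
    rw [e2] at e1
    exact e1
  rw [← hb] at m2
  have hpi : (Real.pi : ℂ) ≠ 0 := by exact_mod_cast Real.pi_ne_zero
  have hb0 : b ≠ 0 := by rw [hb]; exact div_ne_zero (pow_ne_zero 2 hpi) (by norm_num)
  have : Module.Finite ℚ (Zsp 2 w) := Module.Finite.iff_fg.2 (fin_dim w)
  have : Module.Finite ℚ (Zsp 2 (w + 2)) := Module.Finite.iff_fg.2 (fin_dim (w + 2))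
  have hne : Zsp 2 w ≠ ⊥ := by
    intro h
    have e1 := h6 w hw
    rw [h, rank_bot] at e1
    have e2 : (0 : Cardinal) < ((w / 2 + 1 : ℕ) : Cardinal) := by
      exact_mod_cast Nat.succ_pos _
    exact absurd e1 (not_le.2 e2)
  by_contra hcon
  rw [← Module.finrank_eq_rank, ← Module.finrank_eq_rank] at hcon
  have hcon2 : Module.finrank ℚ (Zsp 2 (w + 2)) ≤ Module.finrank ℚ (Zsp 2 w) := by
    by_contra h
    apply hcon
    have : Module.finrank ℚ (Zsp 2 w) + 1 ≤ Module.finrank ℚ (Zsp 2 (w + 2)) := by omega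
    exact_mod_cast this
  -- multiplication by `b`
  let mb : ℂ →ₗ[ℚ] ℂ := LinearMap.mulLeft ℚ b
  have hmb : Function.Injective mb := mul_right_injective₀ hb0
  have hle : (Zsp 2 w).map mb ≤ Zsp 2 (w + 2) := by
    rintro _ ⟨v, hv, rfl⟩
    exact m2 v hv
  have hrk : Module.finrank ℚ ((Zsp 2 w).map mb) = Module.finrank ℚ (Zsp 2 w) :=
    LinearEquiv.finrank_eq (Submodule.equivMapOfInjective mb hmb (Zsp 2 w)).symm
  have heq : (Zsp 2 w).map mb = Zsp 2 (w + 2) :=
    Submodule.eq_of_le_of_finrank_le hle (by rw [hrk]; exact hcon2)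
  have hint : IsIntegral ℚ (a / b) := by
    refine isIntegral_of_smul_mem_submodule (Zsp 2 w) hne (fin_dim w) (a / b) ?_
    intro v hv
    have e1 := ma v hv
    rw [← heq] at e1
    obtain ⟨v', hv', e2⟩ := e1
    have e3 : (a / b) • v = v' := by
      have e4 : b * v' = a * v := e2
      rw [smul_eq_mul]
      field_simp
      rw [← e4, mul_comm]
    rw [e3]
    exact hv'
  have halg : IsAlgebraic ℚ (a / b) := hint.isAlgebraic
  apply h5
  have e1 : a / b = ((6 * (Real.log 2 / Real.pi) ^ 2 : ℝ) : ℂ) := by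
    rw [ha, hb]
    push_cast
    field_simp
  rw [e1] at halg
  have e2 : IsAlgebraic ℚ (6 * (Real.log 2 / Real.pi) ^ 2 : ℝ) := by
    have := (isAlgebraic_algebraMap_iff (R := ℚ) (S := ℝ) (A := ℂ)
      (algebraMap ℝ ℂ).injective (a := (6 * (Real.log 2 / Real.pi) ^ 2 : ℝ))).1 halg
    exact this
  have e3 : IsAlgebraic ℚ ((Real.log 2 / Real.pi) ^ 2 : ℝ) := by
    have e4 : ((Real.log 2 / Real.pi) ^ 2 : ℝ) =
        (algebraMap ℚ ℝ (1 / 6)) * (6 * (Real.log 2 / Real.pi) ^ 2 : ℝ) := by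
      rw [eq_ratCast]
      push_cast
      ring
    rw [e4]
    exact (isAlgebraic_algebraMap _).mul e2
  exact (IsAlgebraic.of_pow (by norm_num) e3)

end Pool.Agent.W348.MC
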